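import Pool.Agent.Lib.MP_146262_an.Core

/-!
The class of spaces with the diametral diameter two property is a Gdelta subset of `𝒫_∞`.
-/

set_option autoImplicit false

open UniformSpace Topology Filter

namespace Pool.Agent.Results.MP_146262_an.DD2P

open Pool.Agent.Lib.MP_146262_an

/-- The (closed) set of pairs `(μ, f)` such that `f` is a tuple of additive functionals on `V` for
which all points `y` of the corresponding weak neighbourhood of `x` in the open ball satisfy
`‖x - y‖ ≤ 1 + ‖x‖ - c`. -/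
def Q (x : V) (n : ℕ) (c : ℝ) : Set (Pn × (Fin n → V → ℝ)) :=
  {p | (∀ i u v, p.2 i (u + v) = p.2 i u + p.2 i v) ∧
    ∀ y : V, p.1.1 y < 1 → (∀ i, |p.2 i (y - x)| < 1) → p.1.1 (x - y) ≤ 1 + p.1.1 x - c}

theorem isClosed_Q (x : V) (n : ℕ) (c : ℝ) : IsClosed (Q x n c) := by
  have hμ : ∀ v : V, Continuous fun p : Pn × (Fin n → V → ℝ) => p.1.1 v := fun v =>
    ((continuous_apply v).comp continuous_subtype_val).comp continuous_fst
  have hf : ∀ i, ∀ v : V, Continuous fun p : Pn × (Fin n → V → ℝ) => p.2 i v := fun i v =>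
    (continuous_apply_apply i v).comp continuous_snd
  have ho : ∀ v : V, IsOpen {p : Pn × (Fin n → V → ℝ) | ∀ i, |p.2 i v| < 1} := by
    intro v
    have : {p : Pn × (Fin n → V → ℝ) | ∀ i, |p.2 i v| < 1} =
        ⋂ i, {p : Pn × (Fin n → V → ℝ) | |p.2 i v| < 1} := by ext; simp
    rw [this]
    exact isOpen_iInter_of_finite fun i => isOpen_lt (hf i v).abs continuous_const
  refine IsClosed.and ?_ ?_
  · simp only [Set.ofPred_forall]
    refine isClosed_iInter fun i => isClosed_iInter fun u => isClosed_iInter fun v => ?_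
    exact isClosed_eq (hf i _) ((hf i u).add (hf i v))
  · simp only [Set.ofPred_forall]
    refine isClosed_iInter fun y => ?_
    refine isClosed_imp (isOpen_lt (hμ y) continuous_const) ?_
    refine isClosed_imp (ho (y - x)) ?_
    exact isClosed_le (hμ _) ((continuous_const.add (hμ x)).sub continuous_const)

/-- The set of `μ` for which some weak neighbourhood of `x`, given by `n` functionals of norm at
most `M`, witnesses the failure of the diametral diameter two property at `x`. -/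
def C (x : V) (n : ℕ) (M c : ℝ) : Set Pn :=
  {μ | ∃ f : Fin n → V → ℝ, (∀ i v, |f i v| ≤ M * μ.1 v) ∧ (μ, f) ∈ Q x n c}

theorem isClosed_C (x : V) (n : ℕ) (M c : ℝ) : IsClosed (C x n M c) :=
  isClosed_exists_bdd M (isClosed_Q x n c)

theorem not_dd2p_of_mem_C {μ : Pn} {x : V} {n : ℕ} {M c : ℝ} (hx : μ.1 x < 1)
    (hc : 0 < c) (h : μ ∈ C x n M c) : ¬ HasDD2P (XSp μ) := by
  obtain ⟨f, hb, hadd, hf⟩ := h
  choose F hF using fun i => exists_functional μ (hadd i) (hb i)
  intro hD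
  let U : Set (WeakSpace ℝ (XSp μ)) :=
    {y | ∀ i, |F i ((toWeakSpace ℝ (XSp μ)).symm y - emb μ x)| < 1}
  have hU : IsOpen U := isOpen_weak_nhd F (emb μ x)
  let O : Set (XSp μ) := (toWeakSpace ℝ (XSp μ)) ⁻¹' U
  have hO : IsOpen O := isOpen_preimage_toWeakSpace hU
  have hOmem : ∀ y : XSp μ, y ∈ O ↔ ∀ i, |F i (y - emb μ x)| < 1 := fun y => Iff.rfl
  have hxO : emb μ x ∈ O := by
    rw [hOmem]
    intro i
    simp
  have hembO : ∀ v : V, emb μ v ∈ O ↔ ∀ i, |f i (v - x)| < 1 := by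
    intro v
    rw [hOmem]
    refine forall_congr' fun i => ?_
    rw [← emb_sub, hF]
  have hxW : emb μ x ∈ Metric.closedBall (0 : XSp μ) 1 ∩ O :=
    ⟨by rw [mem_closedBall_zero_iff, norm_emb]; exact hx.le, hxO⟩
  obtain ⟨y, hy, hy2⟩ := hD _ ⟨U, hU, rfl⟩ (emb μ x) hxW (c / 2) (half_pos hc)
  have h3 : ‖emb μ x - y‖ ≤ 1 + ‖emb μ x‖ - c := by
    refine le_of_forall_pos_le_add fun δ hδ => ?_
    obtain ⟨v, hv1, hv2, hv3⟩ := exists_emb_near μ hO hy.2 (mem_closedBall_zero_iff.1 hy.1) hδ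
    have h4 := hf v hv1 ((hembO v).1 hv2)
    have h5 : ‖emb μ x - emb μ v‖ ≤ 1 + ‖emb μ x‖ - c := by rwa [← emb_sub, norm_emb, norm_emb]
    have h6 : emb μ x - y = (emb μ x - emb μ v) - (y - emb μ v) := by abel
    rw [h6]
    calc ‖(emb μ x - emb μ v) - (y - emb μ v)‖
        ≤ ‖emb μ x - emb μ v‖ + ‖y - emb μ v‖ := norm_sub_le _ _
      _ ≤ 1 + ‖emb μ x‖ - c + δ := by linarith
  linarith

theorem exists_mem_C {μ : Pn} (h : ¬ HasDD2P (XSp μ)) :
    ∃ (x : V) (n M k : ℕ), μ.1 x < 1 ∧ μ ∈ C x n M (1 / ((k : ℝ) + 1)) := by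
  unfold HasDD2P at h
  push Not at h
  obtain ⟨W, ⟨U, hU, rfl⟩, w, hw, ε, hε, hlt⟩ := h
  obtain ⟨k, hk⟩ := exists_nat_one_div_lt (half_pos hε)
  obtain ⟨x, hx1, hx2, hx3⟩ := exists_emb_near μ (isOpen_preimage_toWeakSpace hU) hw.2
    (mem_closedBall_zero_iff.1 hw.1) (show 0 < ε / 4 by positivity)
  obtain ⟨n, F, hF⟩ := weak_nhds_basis hU (x := emb μ x) hx2
  obtain ⟨M, hM⟩ := exists_nat_ge (∑ i, ‖F i‖)
  refine ⟨x, n, M, k, hx1, fun i v => F i (emb μ v), fun i v => ?_, fun i u v => ?_, ?_⟩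
  · calc |F i (emb μ v)| ≤ ‖F i‖ * ‖emb μ v‖ := (F i).le_opNorm _
      _ ≤ (∑ i, ‖F i‖) * ‖emb μ v‖ := by
          gcongr
          exact Finset.single_le_sum (f := fun i => ‖F i‖) (fun j _ => norm_nonneg (F j))
            (Finset.mem_univ i)
      _ ≤ M * μ.1 v := by
          rw [norm_emb]
          exact mul_le_mul_of_nonneg_right hM (μ.2.nonneg v)
  · change F i (emb μ (u + v)) = _
    rw [emb_add, map_add]
  · intro y hy hy2
    have hyU : emb μ y ∈ Metric.closedBall (0 : XSp μ) 1 ∩ (toWeakSpace ℝ (XSp μ)) ⁻¹' U := by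
      refine ⟨?_, hF _ fun i => ?_⟩
      · rw [mem_closedBall_zero_iff, norm_emb]; exact hy.le
      · have h9 : |F i (emb μ (y - x))| < 1 := hy2 i
        rwa [emb_sub] at h9
    have h5 := hlt _ hyU
    change μ.1 (x - y) ≤ 1 + μ.1 x - 1 / ((k : ℝ) + 1)
    rw [← norm_emb μ (x - y), ← norm_emb μ x, emb_sub]
    have h6 : emb μ x - emb μ y = (w - emb μ y) - (w - emb μ x) := by abel
    have h7 : ‖emb μ x - emb μ y‖ ≤ ‖w - emb μ y‖ + ‖w - emb μ x‖ := by
      rw [h6]; exact norm_sub_le _ _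
    have h8 : ‖w‖ ≤ ‖emb μ x‖ + ‖w - emb μ x‖ := by
      have : w = emb μ x + (w - emb μ x) := by abel
      conv_lhs => rw [this]
      exact norm_add_le _ _
    linarith

/-- The class of all infinite-dimensional separable real Banach spaces with the diametral diameter
two property is a Gdelta subset of `𝒫_∞`. -/
theorem result : IsGδ {μ : PInf | HasDD2P (XSp μ.1)} := by
  have key : {μ : PInf | HasDD2P (XSp μ.1)} =
      ⋂ q : V × ℕ × ℕ × ℕ, ({μ : PInf | 1 ≤ μ.1.1 q.1} ∪
        {μ : PInf | μ.1 ∈ (C q.1 q.2.1 q.2.2.1 (1 / ((q.2.2.2 : ℝ) + 1)))ᶜ}) := by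
    ext μ
    simp only [Set.mem_ofPred_eq, Set.mem_iInter, Set.mem_union, Set.mem_compl_iff]
    constructor
    · rintro h ⟨x, n, M, k⟩
      by_contra hcon
      push Not at hcon
      refine not_dd2p_of_mem_C hcon.1 ?_ hcon.2 h
      positivity
    · intro h
      by_contra hcon
      obtain ⟨x, n, M, k, hx, hC⟩ := exists_mem_C hcon
      rcases h ⟨x, n, M, k⟩ with h1 | h1
      · exact absurd h1 (not_le.2 hx)
      · exact h1 hC
  rw [key]
  refine IsGδ.iInter fun q => ?_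
  refine IsGδ.union ?_ ?_
  · have hc : Continuous fun μ : PInf => μ.1.1 q.1 :=
      ((continuous_apply q.1).comp continuous_subtype_val).comp continuous_subtype_val
    have : {μ : PInf | 1 ≤ μ.1.1 q.1} =
        ⋂ m : ℕ, {μ : PInf | 1 - 1 / ((m : ℝ) + 1) < μ.1.1 q.1} := by
      ext μ
      simp only [Set.mem_ofPred_eq, Set.mem_iInter]
      constructor
      · intro h m
        have : (0 : ℝ) < 1 / ((m : ℝ) + 1) := by positivity
        linarith
      · intro h
        refine le_of_forall_pos_le_add fun δ hδ => ?_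
        obtain ⟨m, hm⟩ := exists_nat_one_div_lt hδ
        have := h m
        linarith
    rw [this]
    exact IsGδ.iInter fun m => (isOpen_lt continuous_const hc).isGδ
  · exact (((isClosed_C _ _ _ _).isOpen_compl).preimage continuous_subtype_val).isGδ

end Pool.Agent.Results.MP_146262_an.DD2P
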